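import Mathlib
import Pool.Agent.H64.HV.Fin

set_option autoImplicit false

namespace Pool.Agent.Results.MP_679a49_co.AllStrengths

/-- The q-analog of the halving conjecture in the range `6 t < k < v - 6 t`, for every finite field
and every strength `t`: if every `i`-subspace of `F^v`, `i ≤ t`, lies in an even number of
`k`-subspaces, then some set `D` of `k`-subspaces contains exactly half of the `k`-subspaces through
each `t`-subspace. -/
theorem result (F : Type) [Field F] [Fintype F] (t k v : ℕ) (hk : 6 * t < k) (hv : k + 6 * t < v)
    (hadm : ∀ i : ℕ, i ≤ t → ∀ S : Submodule F (Fin v → F), Module.finrank F S = i →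
      Even (Set.ncard {W : Submodule F (Fin v → F) | Module.finrank F W = k ∧ S ≤ W})) :
    ∃ D : Set (Submodule F (Fin v → F)),
      (∀ W ∈ D, Module.finrank F W = k) ∧
      ∀ T : Submodule F (Fin v → F), Module.finrank F T = t →
        2 * Set.ncard {W : Submodule F (Fin v → F) | W ∈ D ∧ T ≤ W} =
          Set.ncard {W : Submodule F (Fin v → F) | Module.finrank F W = k ∧ T ≤ W} :=
  Pool.Agent.H64.HV.main F t k v hk hv hadm

end Pool.Agent.Results.MP_679a49_co.AllStrengths
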