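import Mathlib
import Pool.Agent.H64.HV.Roots

set_option autoImplicit false

namespace Pool.Agent.Results.MP_679a49_co.FiniteRootCases

/-- The instance `(F, t, k, v)` of the q-analog of the halving conjecture: if every `i`-subspace of
`F^v`, `i ≤ t`, lies in an even number of `k`-subspaces, then some set `D` of `k`-subspaces contains
exactly half of the `k`-subspaces through each `t`-subspace. -/
def Instance (F : Type) [Field F] [Fintype F] (t k v : ℕ) : Prop :=
  (∀ i : ℕ, i ≤ t → ∀ S : Submodule F (Fin v → F), Module.finrank F S = i →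
      Even (Set.ncard {W : Submodule F (Fin v → F) | Module.finrank F W = k ∧ S ≤ W})) →
    ∃ D : Set (Submodule F (Fin v → F)),
      (∀ W ∈ D, Module.finrank F W = k) ∧
      ∀ T : Submodule F (Fin v → F), Module.finrank F T = t →
        2 * Set.ncard {W : Submodule F (Fin v → F) | W ∈ D ∧ T ≤ W} =
          Set.ncard {W : Submodule F (Fin v → F) | Module.finrank F W = k ∧ T ≤ W}

/-- Reduction to finitely many root cases for each strength. For every finite field `F` and every
`t`, all instances `(F, t, k, v)` with `t < k < v` hold if and only if those with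
`k = 2^n + j`, `v = 2^(n+1) + t`, `0 ≤ j ≤ t/2`, `t < 2^n + j ≤ 6 t` (and `j = 0` if `t = 2`)
hold. -/
theorem result (F : Type) [Field F] [Fintype F] (t : ℕ) :
    (∀ k v : ℕ, t < k → k < v → Instance F t k v) ↔
      (∀ n j : ℕ, 2 * j ≤ t → t < 2 ^ n + j → 2 ^ n + j ≤ 6 * t → (t = 2 → j = 0) →
        Instance F t (2 ^ n + j) (2 ^ (n + 1) + t)) := by
  constructor
  · intro h n j hj hn _ _
    have hpow : 2 ^ (n + 1) = 2 * 2 ^ n := pow_succ' 2 n
    have hpos : 0 < 2 ^ n := pow_pos (by norm_num) n
    exact h _ _ hn (by omega)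
  · intro h k v htk hkv
    exact Pool.Agent.H64.HV.finite_roots F t h k v htk hkv.le

end Pool.Agent.Results.MP_679a49_co.FiniteRootCases
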