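import Mathlib
import Pool.Agent.H24.LSFinal

set_option autoImplicit false

namespace Pool.Agent.Results.MP_679a49_co.StrengthOneComplete

/-- The q-analog of the halving conjecture for `t = 1`, over every finite field: if every `i`-subspace
of `F^v`, `i ≤ 1`, lies in an even number of `k`-subspaces, then some set `D` of `k`-subspaces
contains exactly half of the `k`-subspaces through each 1-dimensional subspace. -/
theorem result (F : Type) [Field F] [Fintype F] (k v : ℕ) (hk : 1 < k) (hkv : k < v)
    (hadm : ∀ i : ℕ, i ≤ 1 → ∀ S : Submodule F (Fin v → F), Module.finrank F S = i →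
      Even (Set.ncard {W : Submodule F (Fin v → F) | Module.finrank F W = k ∧ S ≤ W})) :
    ∃ D : Set (Submodule F (Fin v → F)),
      (∀ W ∈ D, Module.finrank F W = k) ∧
      ∀ T : Submodule F (Fin v → F), Module.finrank F T = 1 →
        2 * Set.ncard {W : Submodule F (Fin v → F) | W ∈ D ∧ T ≤ W} =
          Set.ncard {W : Submodule F (Fin v → F) | Module.finrank F W = k ∧ T ≤ W} :=
  Pool.Agent.H24.LS.one_complete F k v hk hkv.le hadm

end Pool.Agent.Results.MP_679a49_co.StrengthOneComplete
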