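import Mathlib
import Pool.Agent.H14.Halv.Final

set_option autoImplicit false

namespace Pool.Agent.Results.MP_679a49_co.StrengthTwoFamily

/-- Halvings for `t = 2`, over every finite field of odd order. If there are `1 ≤ e < l` with
`v mod 2^e < k mod 2^e` and `2^e ≤ v mod 2^l < k mod 2^l`, then some set `D` of `k`-subspaces of `F^v`
contains exactly half of the `k`-subspaces through each 2-dimensional subspace.
(The conditions hold for `v = 2 * k` whenever `k ≥ 3` is not a power of two.) -/
theorem result (F : Type) [Field F] [Fintype F] (hF : Odd (Fintype.card F)) (k v e l : ℕ)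
    (hkv : k < v) (he : 1 ≤ e) (hel : e < l) (h1 : v % 2 ^ e < k % 2 ^ e)
    (h2 : 2 ^ e ≤ v % 2 ^ l) (h3 : v % 2 ^ l < k % 2 ^ l) :
    ∃ D : Set (Submodule F (Fin v → F)),
      (∀ W ∈ D, Module.finrank F W = k) ∧
      ∀ T : Submodule F (Fin v → F), Module.finrank F T = 2 →
        2 * Set.ncard {W : Submodule F (Fin v → F) | W ∈ D ∧ T ≤ W} =
          Set.ncard {W : Submodule F (Fin v → F) | Module.finrank F W = k ∧ T ≤ W} :=
  Pool.Agent.H14.Halv.family F (by rw [Nat.card_eq_fintype_card]; exact hF) e l k v he hel h1 h2 h3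
    hkv.le

end Pool.Agent.Results.MP_679a49_co.StrengthTwoFamily
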